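import Mathlib

/-!
# Local metric dimension and clique number: the reduction machinery
-/

set_option autoImplicit false

namespace Pool.Agent.E8helper22.LMD

open Finset Classical

universe u

variable {V : Type u} (G : SimpleGraph V)

/-- The isolated cliques of size `r + 1` of the induced subgraph on `A`. -/
noncomputable def Iso (r : ℕ) (A : Finset V) : Finset (Finset V) :=
  A.powerset.filter fun K => K.card = r + 1 ∧ (∀ x ∈ K, ∀ y ∈ K, x ≠ y → G.Adj x y) ∧
    ∀ a ∈ A, a ∉ K → ∀ k ∈ K, ¬ G.Adj a k

/-- some vertex of `W` is adjacent to exactly one of `u`, `v` -/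
def Res (W : Finset V) (u v : V) : Prop := ∃ w ∈ W, ¬ (G.Adj w u ↔ G.Adj w v)

/-- all edges inside `U` are resolved by `A \ U` -/
def Good (A U : Finset V) : Prop :=
  U ⊆ A ∧ ∀ u ∈ U, ∀ v ∈ U, G.Adj u v → Res G (A \ U) u v

/-- the pair `(S, U)` can be split off from `A` -/
def Red (A S U : Finset V) : Prop :=
  U ⊆ S ∧ S ⊆ A ∧ S.Nonempty ∧ (∀ u ∈ U, ∀ v ∈ U, G.Adj u v → Res G (S \ U) u v) ∧
    (∀ u ∈ U, ∀ t ∈ A \ S, G.Adj u t → Res G (S \ U) u t)

variable {G}

lemma Res.mono {W W' : Finset V} (h : W ⊆ W') {u v : V} (hr : Res G W u v) : Res G W' u v := by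
  obtain ⟨w, hw, h1⟩ := hr
  exact ⟨w, h hw, h1⟩

lemma Res.symm {W : Finset V} {u v : V} (hr : Res G W u v) : Res G W v u := by
  obtain ⟨w, hw, h1⟩ := hr
  exact ⟨w, hw, fun h => h1 h.symm⟩

lemma mem_Iso {r : ℕ} {A K : Finset V} : K ∈ Iso G r A ↔ K ⊆ A ∧ K.card = r + 1 ∧
    (∀ x ∈ K, ∀ y ∈ K, x ≠ y → G.Adj x y) ∧ ∀ a ∈ A, a ∉ K → ∀ k ∈ K, ¬ G.Adj a k := by
  unfold Iso
  rw [mem_filter, mem_powerset]

/-- gluing -/
lemma glue {A S U U' : Finset V} (h : Red G A S U) (h' : Good G (A \ S) U') :
    Good G A (U ∪ U') := by
  obtain ⟨h1, h2, -, h4, h5⟩ := h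
  obtain ⟨g1, g2⟩ := h'
  have hU' : ∀ x ∈ U', x ∈ A ∧ x ∉ S := fun x hx => mem_sdiff.1 (g1 hx)
  have e1 : S \ U ⊆ A \ (U ∪ U') := by
    intro x hx
    rw [mem_sdiff] at hx
    rw [mem_sdiff, mem_union]
    refine ⟨h2 hx.1, ?_⟩
    rintro (h | h)
    · exact hx.2 h
    · exact (hU' x h).2 hx.1
  have e2 : (A \ S) \ U' ⊆ A \ (U ∪ U') := by
    intro x hx
    rw [mem_sdiff, mem_sdiff] at hx
    rw [mem_sdiff, mem_union]
    refine ⟨hx.1.1, ?_⟩
    rintro (h | h)
    · exact hx.1.2 (h1 h)
    · exact hx.2 h
  refine ⟨union_subset (h1.trans h2) (g1.trans sdiff_subset), ?_⟩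
  intro u hu v hv hadj
  rw [mem_union] at hu hv
  rcases hu with hu | hu <;> rcases hv with hv | hv
  · exact (h4 u hu v hv hadj).mono e1
  · exact (h5 u hu v (g1 hv) hadj).mono e1
  · exact ((h5 v hv u (g1 hu) hadj.symm).mono e1).symm
  · exact (g2 u hu v hv hadj).mono e2

/-- Every graph with clique number at most `c` has a good set of size at least `n / c`. -/
lemma simple_bound : ∀ (n c : ℕ) (A : Finset V), A.card = n →
    (∀ K ⊆ A, (∀ x ∈ K, ∀ y ∈ K, x ≠ y → G.Adj x y) → K.card ≤ c) →
    ∃ U, Good G A U ∧ A.card ≤ c * U.card := by
  intro n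
  induction n using Nat.strong_induction_on with
  | _ n ih =>
    intro c
    induction c with
    | zero =>
      intro A hA hK
      have : A = ∅ := by
        by_contra hne
        obtain ⟨a, ha⟩ := nonempty_iff_ne_empty.2 hne
        have := hK {a} (by simpa using ha) (by
          intro x hx y hy hxy
          rw [mem_singleton] at hx hy
          exact absurd (hx.trans hy.symm) hxy)
        simp at this
      subst this
      exact ⟨∅, ⟨Subset.refl _, by simp⟩, by simp⟩
    | succ c ihc =>
      intro A hA hK
      by_cases hc : ∀ K ⊆ A, (∀ x ∈ K, ∀ y ∈ K, x ≠ y → G.Adj x y) → K.card ≤ c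
      · obtain ⟨U, h1, h2⟩ := ihc A hA hc
        exact ⟨U, h1, h2.trans (Nat.mul_le_mul_right _ (Nat.le_succ c))⟩
      · push Not at hc
        obtain ⟨K, hKA, hKc, hKcard⟩ := hc
        have hKcard' : K.card = c + 1 := le_antisymm (hK K hKA hKc) hKcard
        rcases Nat.eq_zero_or_pos c with rfl | hcpos
        · -- no edges
          refine ⟨A, ⟨Subset.refl _, ?_⟩, by simp⟩
          intro u hu v hv hadj
          exfalso
          have := hK {u, v} (by
            intro x hx
            rw [mem_insert, mem_singleton] at hx
            rcases hx with rfl | rfl <;> assumption) (by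
            intro x hx y hy hxy
            rw [mem_insert, mem_singleton] at hx hy
            rcases hx with rfl | rfl <;> rcases hy with rfl | rfl
            · exact absurd rfl hxy
            · exact hadj
            · exact hadj.symm
            · exact absurd rfl hxy)
          rw [card_pair hadj.ne] at this
          omega
        · obtain ⟨x, hx⟩ : K.Nonempty := by rw [← card_pos]; omega
          set N := A.filter (fun y => G.Adj x y) with hN
          have hNA : N ⊆ A := filter_subset _ _
          have hxN : x ∉ N := by simp [hN]
          have hKN : K.erase x ⊆ N := by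
            intro y hy
            rw [mem_erase] at hy
            rw [hN, mem_filter]
            exact ⟨hKA hy.2, hKc x hx y hy.2 (Ne.symm hy.1)⟩
          have hNc : c ≤ N.card := by
            have := card_le_card hKN
            rw [card_erase_of_mem hx, hKcard'] at this
            simpa using this
          have hxA : x ∈ A := hKA hx
          have hNlt : N.card < n := by
            rw [← hA]
            apply card_lt_card
            refine ⟨hNA, fun h => hxN (h hxA)⟩
          obtain ⟨UN, hUN, hUNc⟩ := ih N.card hNlt c N rfl (by
            intro L hL hLc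
            have := hK (insert x L) (by
              intro y hy
              rw [mem_insert] at hy
              rcases hy with rfl | hy
              · exact hxA
              · exact hNA (hL hy)) (by
              intro y hy z hz hyz
              rw [mem_insert] at hy hz
              rcases hy with rfl | hy <;> rcases hz with rfl | hz
              · exact absurd rfl hyz
              · exact (mem_filter.1 (hL hz)).2
              · exact (mem_filter.1 (hL hy)).2.symm
              · exact hLc y hy z hz hyz)
            rw [card_insert_of_notMem (fun h => hxN (hL h))] at this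
            omega)
          set S := insert x N with hS
          have hSA : S ⊆ A := insert_subset hxA hNA
          have hMlt : (A \ S).card < n := by
            rw [← hA]
            apply card_lt_card
            refine ⟨sdiff_subset, fun h => ?_⟩
            have := h hxA
            rw [mem_sdiff] at this
            exact this.2 (mem_insert_self _ _)
          obtain ⟨UM, hUM, hUMc⟩ := ih (A \ S).card hMlt (c + 1) (A \ S) rfl
            (fun L hL hLc => hK L (hL.trans sdiff_subset) hLc)
          have hxUN : x ∉ UN := fun h => hxN (hUN.1 h)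
          have hRed : Red G A S UN := by
            refine ⟨hUN.1.trans (subset_insert _ _), hSA, ⟨x, mem_insert_self _ _⟩, ?_, ?_⟩
            · intro u hu v hv hadj
              refine (hUN.2 u hu v hv hadj).mono ?_
              exact sdiff_subset_sdiff (subset_insert _ _) (Subset.refl _)
            · intro u hu t ht hadj
              refine ⟨x, ?_, ?_⟩
              · rw [mem_sdiff]
                exact ⟨mem_insert_self _ _, hxUN⟩
              · intro h
                have h1 : G.Adj x u := (mem_filter.1 (hUN.1 hu)).2
                have h2 := h.1 h1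
                rw [mem_sdiff] at ht
                apply ht.2
                rw [hS, mem_insert]
                right
                rw [hN, mem_filter]
                exact ⟨ht.1, h2⟩
          refine ⟨UN ∪ UM, glue hRed hUM, ?_⟩
          have hdisj : Disjoint UN UM := by
            rw [disjoint_left]
            intro y hy hy'
            have := hUM.1 hy'
            rw [mem_sdiff] at this
            exact this.2 (mem_insert_of_mem (hUN.1 hy))
          rw [card_union_of_disjoint hdisj]
          have h1 : S.card = N.card + 1 := by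
            rw [hS, card_insert_of_notMem hxN]
          have h2 : (A \ S).card + S.card = A.card := card_sdiff_add_card_eq_card hSA
          have h3 : 1 ≤ UN.card := by
            by_contra h
            have : UN.card = 0 := by omega
            rw [this] at hUNc
            omega
          have h4 : N.card + 1 ≤ (c + 1) * UN.card := by nlinarith
          nlinarith

/-- The master inequality. -/
lemma master {r : ℕ} {A : Finset V} (hr : 1 ≤ r)
    (hclq : ∀ K ⊆ A, (∀ x ∈ K, ∀ y ∈ K, x ≠ y → G.Adj x y) → K.card ≤ r + 1)
    (IH : ∀ A' : Finset V, A' ⊂ A → ∃ U, Good G A' U ∧ A'.card ≤ r * U.card + (Iso G r A').card)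
    (T : Finset (Finset V)) : ∀ S U : Finset V, Red G A S U → T ⊆ Iso G r (A \ S) →
      (∀ D ∈ T, ∃ w ∈ S \ U, ∃ d ∈ D, G.Adj w d) →
      ∃ X, Good G A X ∧ A.card + r * U.card + (r - 1) * T.card ≤
        r * X.card + S.card + (Iso G r (A \ S) \ T).card := by
  induction T using Finset.induction_on with
  | empty =>
    intro S U hRed _ _
    have hss : A \ S ⊂ A := by
      obtain ⟨-, h2, ⟨x, hx⟩, -, -⟩ := hRed
      refine ⟨sdiff_subset, fun h => ?_⟩
      have := h (h2 hx)
      rw [mem_sdiff] at this
      exact this.2 hx
    obtain ⟨U', h1, h2⟩ := IH _ hss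
    refine ⟨U ∪ U', glue hRed h1, ?_⟩
    have hdisj : Disjoint U U' := by
      rw [disjoint_left]
      intro y hy hy'
      have := h1.1 hy'
      rw [mem_sdiff] at this
      exact this.2 (hRed.1 hy)
    rw [card_union_of_disjoint hdisj]
    have h3 : (A \ S).card + S.card = A.card := card_sdiff_add_card_eq_card hRed.2.1
    simp only [card_empty, mul_zero, add_zero, sdiff_empty]
    nlinarith
  | insert D T hDT ih =>
    intro S U hRed hsub htouch
    have hD := hsub (mem_insert_self D T)
    obtain ⟨w, hw, d, hd, hwd⟩ := htouch D (mem_insert_self D T)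
    have hD' := hD
    rw [mem_Iso] at hD'
    obtain ⟨hDA, hDc, hDclq, hDiso⟩ := hD'
    rw [mem_sdiff] at hw
    have hUS := hRed.1
    have hSA := hRed.2.1
    have hDmem : ∀ x ∈ D, x ∈ A ∧ x ∉ S := fun x hx => mem_sdiff.1 (hDA hx)
    -- a vertex of D not adjacent to w
    obtain ⟨b, hb, hwb⟩ : ∃ b ∈ D, ¬ G.Adj w b := by
      by_contra hcon
      push Not at hcon
      have hwD : w ∉ D := fun h => (hDmem w h).2 hw.1
      have := hclq (insert w D) (by
        intro y hy
        rw [mem_insert] at hy
        rcases hy with rfl | hy
        · exact hSA hw.1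
        · exact (hDmem y hy).1) (by
        intro y hy z hz hyz
        rw [mem_insert] at hy hz
        rcases hy with rfl | hy <;> rcases hz with rfl | hz
        · exact absurd rfl hyz
        · exact hcon z hz
        · exact (hcon y hy).symm
        · exact hDclq y hy z hz hyz)
      rw [card_insert_of_notMem hwD] at this
      omega
    have hdb : d ≠ b := by
      rintro rfl
      exact hwb hwd
    set S' := S ∪ D with hS'
    set U' := U ∪ {d, b} with hU'
    have hdisjSD : Disjoint S D := by
      rw [disjoint_left]
      intro y hy hy'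
      exact (hDmem y hy').2 hy
    have hWsub : S \ U ⊆ S' \ U' := by
      intro x hx
      rw [mem_sdiff] at hx
      rw [mem_sdiff, hS', hU', mem_union, mem_union, mem_insert, mem_singleton]
      refine ⟨Or.inl hx.1, ?_⟩
      rintro (h | rfl | rfl)
      · exact hx.2 h
      · exact (hDmem _ hd).2 hx.1
      · exact (hDmem _ hb).2 hx.1
    have hRed' : Red G A S' U' := by
      refine ⟨?_, ?_, ?_, ?_, ?_⟩
      · intro x hx
        rw [hU', mem_union, mem_insert, mem_singleton] at hx
        rw [hS', mem_union]
        rcases hx with h | rfl | rfl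
        · exact Or.inl (hUS h)
        · exact Or.inr hd
        · exact Or.inr hb
      · exact union_subset hSA (fun x hx => (hDmem x hx).1)
      · exact hRed.2.2.1.mono subset_union_left
      · have key : ∀ u ∈ U, ∀ t ∈ D, G.Adj u t → Res G (S' \ U') u t := by
          intro u hu t ht hadj
          exact (hRed.2.2.2.2 u hu t (hDA ht) hadj).mono hWsub
        have hpair : ∀ x, x = d ∨ x = b → x ∈ D := by
          rintro x (rfl | rfl) <;> assumption
        intro u hu v hv hadj
        rw [hU', mem_union, mem_insert, mem_singleton] at hu hv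
        rcases hu with hu | hu <;> rcases hv with hv | hv
        · exact (hRed.2.2.2.1 u hu v hv hadj).mono hWsub
        · exact key u hu v (hpair v hv) hadj
        · exact (key v hv u (hpair u hu) hadj.symm).symm
        · refine ⟨w, hWsub (mem_sdiff.2 hw), ?_⟩
          intro hiff
          rcases hu with rfl | rfl <;> rcases hv with rfl | rfl
          · exact hadj.ne rfl
          · exact hwb (hiff.1 hwd)
          · exact hwb (hiff.2 hwd)
          · exact hadj.ne rfl
      · intro u hu t ht hadj
        rw [mem_sdiff, hS', mem_union] at ht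
        push Not at ht
        rw [hU', mem_union, mem_insert, mem_singleton] at hu
        rcases hu with hu | hu
        · exact (hRed.2.2.2.2 u hu t (mem_sdiff.2 ⟨ht.1, ht.2.1⟩) hadj).mono hWsub
        · have huD : u ∈ D := by rcases hu with rfl | rfl <;> assumption
          exact absurd hadj.symm (hDiso t (mem_sdiff.2 ⟨ht.1, ht.2.1⟩) ht.2.2 u huD)
    have hASS : A \ S' = (A \ S) \ D := by
      ext x
      rw [hS', mem_sdiff, mem_union, mem_sdiff, mem_sdiff]
      tauto
    have hTsub : T ⊆ Iso G r (A \ S') := by
      intro E hE
      have hE1 := hsub (mem_insert_of_mem hE)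
      rw [mem_Iso] at hE1
      obtain ⟨e1, e2, e3, e4⟩ := hE1
      have hED : Disjoint E D := by
        rw [disjoint_left]
        intro x hxE hxD
        apply hDT
        have : D = E := by
          apply Finset.Subset.antisymm
          · intro y hy
            by_contra hyE
            have hxy : y ≠ x := by
              rintro rfl
              exact hyE hxE
            exact e4 y (hDA hy) hyE x hxE (hDclq y hy x hxD hxy)
          · intro y hy
            by_contra hyD
            have hxy : y ≠ x := by
              rintro rfl
              exact hyD hxD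
            exact hDiso y (e1 hy) hyD x hxD (e3 y hy x hxE hxy)
        rw [this]
        exact hE
      rw [mem_Iso, hASS]
      refine ⟨?_, e2, e3, ?_⟩
      · intro x hx
        rw [mem_sdiff]
        exact ⟨e1 hx, fun h => (disjoint_left.1 hED) hx h⟩
      · intro a ha
        exact e4 a (mem_sdiff.1 ha).1
    obtain ⟨X, hX, hXc⟩ := ih S' U' hRed' hTsub (by
      intro E hE
      obtain ⟨w', hw', d', hd', hadj⟩ := htouch E (mem_insert_of_mem hE)
      exact ⟨w', hWsub hw', d', hd', hadj⟩)
    refine ⟨X, hX, ?_⟩
    have c1 : S'.card = S.card + (r + 1) := by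
      rw [hS', card_union_of_disjoint hdisjSD, hDc]
    have c2 : U'.card = U.card + 2 := by
      rw [hU', card_union_of_disjoint, card_pair hdb]
      rw [disjoint_left]
      intro y hy hy'
      rw [mem_insert, mem_singleton] at hy'
      rcases hy' with rfl | rfl
      · exact (hDmem _ hd).2 (hUS hy)
      · exact (hDmem _ hb).2 (hUS hy)
    have c3 : (insert D T).card = T.card + 1 := card_insert_of_notMem hDT
    have c4 : (Iso G r (A \ S') \ T).card ≤ (Iso G r (A \ S) \ insert D T).card := by
      apply card_le_card
      intro E hE
      rw [mem_sdiff, mem_Iso, hASS] at hE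
      obtain ⟨⟨e1, e2, e3, e4⟩, hET⟩ := hE
      have hED : Disjoint E D := by
        rw [disjoint_left]
        intro x hx hx'
        exact (mem_sdiff.1 (e1 hx)).2 hx'
      rw [mem_sdiff, mem_Iso, mem_insert]
      refine ⟨⟨e1.trans sdiff_subset, e2, e3, ?_⟩, ?_⟩
      · intro a ha haE k hk
        by_cases haD : a ∈ D
        · intro hadj
          have hk1 := mem_sdiff.1 (e1 hk)
          exact hDiso k hk1.1 hk1.2 a haD hadj.symm
        · exact e4 a (mem_sdiff.2 ⟨ha, haD⟩) haE k hk
      · rintro (rfl | h)
        · obtain ⟨x, hx⟩ : E.Nonempty := by rw [← card_pos]; omega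
          exact disjoint_left.1 hED hx hx
        · exact hET h
    rw [c1, c2] at hXc
    rw [c3]
    obtain ⟨s, rfl⟩ : ∃ s, r = s + 1 := ⟨r - 1, by omega⟩
    simp only [Nat.add_sub_cancel] at hXc ⊢
    nlinarith

end Pool.Agent.E8helper22.LMD
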