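import Pool.Agent.E8helper22.LMDTwo

/-!
# Local metric dimension and clique number: conclusion
-/

set_option autoImplicit false

namespace Pool.Agent.E8helper22.LMD

open Finset Classical

universe u

variable {V : Type u} {G : SimpleGraph V}

namespace Bad

variable {A : Finset V}

/-- In a triangle-isolating situation: a vertex has at most one neighbour in a triangle. -/
lemma two_nbr (hb : Bad G 2 A) {B D : Finset V} (hBA : B ⊆ A) (hD : D ∈ Iso G 2 B) {x : V}
    (hxA : x ∈ A) (hxD : x ∉ D) {d e : V} (hd : d ∈ D) (he : e ∈ D) (hxd : G.Adj x d)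
    (hxe : G.Adj x e) : d = e := by
  by_contra hne
  obtain ⟨d1, d2, d3, d4⟩ := mem_Iso.1 hD
  obtain ⟨f, hf, hfn⟩ : ∃ f ∈ D, f ∉ ({d, e} : Finset V) := by
    by_contra h
    push Not at h
    have h1 : D ⊆ {d, e} := h
    have h2 := card_le_card h1
    have h3 := card_le_two (a := d) (b := e)
    omega
  rw [mem_insert, mem_singleton] at hfn
  push Not at hfn
  have := hb.two_unique (hBA (d1 hd)) (hBA (d1 he)) hxA (hBA (d1 hf)) (d3 d hd e he hne)
    hxd.symm hxe.symm (d3 d hd f hf (Ne.symm hfn.1)) (d3 e he f hf (Ne.symm hfn.2))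
  exact hxD (this ▸ hf)

lemma false_of_two (hb : Bad G 2 A) {K : Finset V} (hKA : K ⊆ A)
    (hKc : K.card = 3) (hKclq : ∀ x ∈ K, ∀ y ∈ K, x ≠ y → G.Adj x y) : False := by
  obtain ⟨y, hy, hyK, a, ha, hya⟩ : ∃ y ∈ A, y ∉ K ∧ ∃ a ∈ K, G.Adj y a := by
    by_contra hcon
    push Not at hcon
    have : K ∈ Iso G 2 A := by
      rw [mem_Iso]
      exact ⟨hKA, hKc, hKclq, hcon⟩
    rw [hb.iso] at this
    simp at this
  -- the other two vertices
  have hKe : (K.erase a).card = 2 := by
    rw [card_erase_of_mem ha, hKc]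
  obtain ⟨b, c, hbc', hKbc⟩ := card_eq_two.1 hKe
  have hbK : b ∈ K.erase a := by rw [hKbc]; simp
  have hcK : c ∈ K.erase a := by rw [hKbc]; simp
  rw [mem_erase] at hbK hcK
  have haA := hKA ha
  have hbA := hKA hbK.2
  have hcA := hKA hcK.2
  have hab : G.Adj a b := hKclq a ha b hbK.2 (Ne.symm hbK.1)
  have hac : G.Adj a c := hKclq a ha c hcK.2 (Ne.symm hcK.1)
  have hbc : G.Adj b c := hKclq b hbK.2 c hcK.2 hbc'
  have hyb : y ≠ b := by
    rintro rfl
    exact hyK hbK.2
  have hyc : y ≠ c := by
    rintro rfl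
    exact hyK hcK.2
  obtain ⟨D, hD, ⟨d1, hd1, had1⟩, ⟨d2, hd2, hbd2⟩, hDc, hDy⟩ :=
    hb.two_step haA hbA hcA hy hab hac hbc hya hyb hyc
  obtain ⟨E, hE, ⟨e1, he1, hae1⟩, ⟨e2, he2, hce2⟩, hEb, hEy⟩ :=
    hb.two_step haA hcA hbA hy hac hab hbc.symm hya hyc hyb
  have hset : ({y, a, c, b} : Finset V) = {y, a, b, c} := by
    ext x
    simp only [mem_insert, mem_singleton]
    tauto
  rw [hset] at hE
  set S : Finset V := {y, a, b, c} with hS
  have hmS : ∀ x, x ∈ S ↔ x = y ∨ x = a ∨ x = b ∨ x = c := by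
    intro x
    rw [hS, mem_insert, mem_insert, mem_insert, mem_singleton]
  have hDE : D ≠ E := by
    rintro rfl
    exact hEb d2 hd2 hbd2
  obtain ⟨D1, D2, D3, D4⟩ := mem_Iso.1 hD
  obtain ⟨E1, E2, E3, E4⟩ := mem_Iso.1 hE
  have hDS : ∀ x ∈ D, x ∈ A ∧ x ∉ S := fun x hx => mem_sdiff.1 (D1 hx)
  have hES : ∀ x ∈ E, x ∈ A ∧ x ∉ S := fun x hx => mem_sdiff.1 (E1 hx)
  have hdisj : Disjoint D E := by
    rw [disjoint_left]
    intro x hx hx'
    exact hDE (Iso_disjoint hD hE x hx hx')
  have haS : a ∈ S := by rw [hmS]; tauto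
  have hbS : b ∈ S := by rw [hmS]; tauto
  have hcS : c ∈ S := by rw [hmS]; tauto
  have haD : a ∉ D := fun h => (hDS a h).2 haS
  have haE : a ∉ E := fun h => (hES a h).2 haS
  have hbD : b ∉ D := fun h => (hDS b h).2 hbS
  have hcE : c ∉ E := fun h => (hES c h).2 hcS
  have hBA : A \ S ⊆ A := sdiff_subset
  have hd12 : d1 ≠ d2 := by
    rintro rfl
    have := hb.two_unique haA hbA hcA (hDS d1 hd1).1 hab hac hbc had1 hbd2
    rw [← this] at hd1
    exact (hDS c hd1).2 hcS
  have he12 : e1 ≠ e2 := by
    rintro rfl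
    have := hb.two_unique haA hcA hbA (hES e1 he1).1 hac hab hbc.symm hae1 hce2
    rw [← this] at he1
    exact (hES b he1).2 hbS
  -- neighbours of D and E in A
  have hDn : ∀ t ∈ A, t ∉ D → ∀ d ∈ D, G.Adj t d → t = a ∨ (t = b ∧ d = d2) := by
    intro t ht htD d hd hadj
    by_cases htS : t ∈ S
    · rw [hmS] at htS
      rcases htS with rfl | rfl | rfl | rfl
      · exact absurd hadj (hDy d hd)
      · exact Or.inl rfl
      · exact Or.inr ⟨rfl, hb.two_nbr hBA hD ht htD hd hd2 hadj hbd2⟩
      · exact absurd hadj (hDc d hd)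
    · exact absurd hadj (D4 t (mem_sdiff.2 ⟨ht, htS⟩) htD d hd)
  have hEn : ∀ t ∈ A, t ∉ E → ∀ d ∈ E, G.Adj t d → t = a ∨ (t = c ∧ d = e2) := by
    intro t ht htE d hd hadj
    by_cases htS : t ∈ S
    · rw [hmS] at htS
      rcases htS with rfl | rfl | rfl | rfl
      · exact absurd hadj (hEy d hd)
      · exact Or.inl rfl
      · exact absurd hadj (hEb d hd)
      · exact Or.inr ⟨rfl, hb.two_nbr hBA hE ht htE hd he2 hadj hce2⟩
    · exact absurd hadj (E4 t (mem_sdiff.2 ⟨ht, htS⟩) htE d hd)
  set S' : Finset V := insert a (D ∪ E) with hS'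
  set U' : Finset V := (D.erase d2) ∪ (E.erase e2) with hU'
  have hmS' : ∀ x, x ∈ S' ↔ x = a ∨ x ∈ D ∨ x ∈ E := by
    intro x
    rw [hS', mem_insert, mem_union]
  have hmU' : ∀ x, x ∈ U' ↔ (x ≠ d2 ∧ x ∈ D) ∨ (x ≠ e2 ∧ x ∈ E) := by
    intro x
    rw [hU', mem_union, mem_erase, mem_erase]
  have haW : a ∈ S' \ U' := by
    rw [mem_sdiff, hmS', hmU']
    exact ⟨Or.inl rfl, fun h => by rcases h with h | h; exacts [haD h.2, haE h.2]⟩
  -- two adjacent elements of D.erase d2 are resolved by a
  have hresD : ∀ u ∈ D, u ≠ d2 → ∀ v ∈ D, v ≠ d2 → G.Adj u v → Res G (S' \ U') u v := by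
    intro u hu hu2 v hv hv2 hadj
    refine ⟨a, haW, ?_⟩
    intro h
    by_cases hau : G.Adj a u
    · exact hadj.ne (hb.two_nbr hBA hD haA haD hu hv hau (h.1 hau))
    · have hav : ¬ G.Adj a v := fun h' => hau (h.2 h')
      have hu1 : u ≠ d1 := by
        rintro rfl
        exact hau had1
      have hv1 : v ≠ d1 := by
        rintro rfl
        exact hav had1
      have h4 : ({u, v, d1, d2} : Finset V) ⊆ D := by
        intro x hx
        rw [mem_insert, mem_insert, mem_insert, mem_singleton] at hx
        rcases hx with rfl | rfl | rfl | rfl <;> assumption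
      have h5 := card_le_card h4
      rw [card_insert_of_notMem, card_insert_of_notMem, card_pair hd12, D2] at h5
      · omega
      · rw [mem_insert, mem_singleton]
        push Not
        exact ⟨hv1, hv2⟩
      · rw [mem_insert, mem_insert, mem_singleton]
        push Not
        exact ⟨hadj.ne, hu1, hu2⟩
  have hresE : ∀ u ∈ E, u ≠ e2 → ∀ v ∈ E, v ≠ e2 → G.Adj u v → Res G (S' \ U') u v := by
    intro u hu hu2 v hv hv2 hadj
    refine ⟨a, haW, ?_⟩
    intro h
    by_cases hau : G.Adj a u
    · exact hadj.ne (hb.two_nbr hBA hE haA haE hu hv hau (h.1 hau))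
    · have hav : ¬ G.Adj a v := fun h' => hau (h.2 h')
      have hu1 : u ≠ e1 := by
        rintro rfl
        exact hau hae1
      have hv1 : v ≠ e1 := by
        rintro rfl
        exact hav hae1
      have h4 : ({u, v, e1, e2} : Finset V) ⊆ E := by
        intro x hx
        rw [mem_insert, mem_insert, mem_insert, mem_singleton] at hx
        rcases hx with rfl | rfl | rfl | rfl <;> assumption
      have h5 := card_le_card h4
      rw [card_insert_of_notMem, card_insert_of_notMem, card_pair he12, E2] at h5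
      · omega
      · rw [mem_insert, mem_singleton]
        push Not
        exact ⟨hv1, hv2⟩
      · rw [mem_insert, mem_insert, mem_singleton]
        push Not
        exact ⟨hadj.ne, hu1, hu2⟩
  have hDEadj : ∀ u ∈ D, ∀ v ∈ E, ¬ G.Adj u v := by
    intro u hu v hv hadj
    exact D4 v (E1 hv) (fun h => (disjoint_left.1 hdisj) h hv) u hu hadj.symm
  have hred : Red G A S' U' := by
    refine ⟨?_, ?_, ⟨a, by rw [hmS']; exact Or.inl rfl⟩, ?_, ?_⟩
    · intro x hx
      rw [hmU'] at hx
      rw [hmS']
      tauto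
    · intro x hx
      rw [hmS'] at hx
      rcases hx with rfl | hx | hx
      · exact haA
      · exact (hDS x hx).1
      · exact (hES x hx).1
    · intro u hu v hv hadj
      rw [hmU'] at hu hv
      rcases hu with ⟨hu2, hu⟩ | ⟨hu2, hu⟩ <;> rcases hv with ⟨hv2, hv⟩ | ⟨hv2, hv⟩
      · exact hresD u hu hu2 v hv hv2 hadj
      · exact absurd hadj (hDEadj u hu v hv)
      · exact absurd hadj.symm (hDEadj v hv u hu)
      · exact hresE u hu hu2 v hv hv2 hadj
    · intro u hu t ht hadj
      exfalso
      rw [mem_sdiff, hmS'] at ht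
      push Not at ht
      obtain ⟨htA, hta, htD, htE⟩ := ht
      rw [hmU'] at hu
      rcases hu with ⟨hu2, hu⟩ | ⟨hu2, hu⟩
      · rcases hDn t htA htD u hu hadj.symm with h | h
        · exact hta h
        · exact hu2 h.2
      · rcases hEn t htA htE u hu hadj.symm with h | h
        · exact hta h
        · exact hu2 h.2
  have h1 := hb.M0 hred ∅ (empty_subset _) (by simp)
  have hS'c : S'.card = 7 := by
    rw [hS', card_insert_of_notMem, card_union_of_disjoint hdisj, D2, E2]
    rw [mem_union]
    rintro (h | h)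
    · exact haD h
    · exact haE h
  have hU'c : U'.card = 4 := by
    rw [hU', card_union_of_disjoint, card_erase_of_mem hd2, card_erase_of_mem he2, D2, E2]
    exact disjoint_of_subset_left (erase_subset _ _)
      (disjoint_of_subset_right (erase_subset _ _) hdisj)
  rw [hS'c, hU'c, sdiff_empty] at h1
  -- every isolated triangle of A \ S' contains b
  have hbAS : b ∈ A \ S' := by
    rw [mem_sdiff, hmS']
    refine ⟨hbA, ?_⟩
    rintro (h | h | h)
    · exact hbK.1 h
    · exact hbD h
    · exact (hES b h).2 hbS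
  have hbF : ∀ F ∈ Iso G 2 (A \ S'), b ∈ F := by
    intro F hF
    by_contra hbF
    obtain ⟨F1, F2, F3, F4⟩ := mem_Iso.1 hF
    have hcF : c ∉ F := fun h => F4 b hbAS hbF c h hbc
    have : F ∈ Iso G 2 (A \ {a}) := by
      rw [mem_Iso]
      refine ⟨?_, F2, F3, ?_⟩
      · intro x hx
        have := F1 hx
        rw [mem_sdiff, hmS'] at this
        rw [mem_sdiff, mem_singleton]
        tauto
      · intro x hx hxF f hf hadj
        rw [mem_sdiff, mem_singleton] at hx
        have hfAS := F1 hf
        have hfb : f ≠ b := by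
          rintro rfl
          exact hbF hf
        have hfc : f ≠ c := by
          rintro rfl
          exact hcF hf
        by_cases hxS : x ∈ S'
        · rw [hmS'] at hxS
          rw [mem_sdiff, hmS'] at hfAS
          push Not at hfAS
          rcases hxS with h | h | h
          · exact hx.2 h
          · rcases hDn f hfAS.1 hfAS.2.2.1 x h hadj.symm with h' | h'
            · exact hfAS.2.1 h'
            · exact hfb h'.1
          · rcases hEn f hfAS.1 hfAS.2.2.2 x h hadj.symm with h' | h'
            · exact hfAS.2.1 h'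
            · exact hfc h'.1
        · exact F4 x (mem_sdiff.2 ⟨hx.1, hxS⟩) hxF f hf hadj
    rw [hb.F1_single haA] at this
    simp at this
  have h2 : (Iso G 2 (A \ S')).card ≤ 1 := by
    rw [card_le_one]
    intro F hF F' hF'
    exact Iso_disjoint hF hF' b (hbF F hF) (hbF F' hF')
  simp only [card_empty, mul_zero, add_zero] at h1
  omega

end Bad

/-- **Main theorem**: a finite graph (here the graph induced on `A`) without clique of size
`r + 2`, `r ≥ 2`, has a good set `U` with `r |U| + κ ≥ |A|`, `κ` the number of components that are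
complete graphs on `r + 1` vertices. -/
theorem main (r : ℕ) (hr : 2 ≤ r) : ∀ (n : ℕ) (A : Finset V), A.card = n →
    (∀ K ⊆ A, (∀ x ∈ K, ∀ y ∈ K, x ≠ y → G.Adj x y) → K.card ≤ r + 1) →
    ∃ U, Good G A U ∧ A.card ≤ r * U.card + (Iso G r A).card := by
  intro n
  induction n using Nat.strong_induction_on with
  | _ n ih =>
    intro A hA hclq
    have IH : ∀ A' : Finset V, A' ⊂ A →
        ∃ U, Good G A' U ∧ A'.card ≤ r * U.card + (Iso G r A').card := by
      intro A' hA'
      exact ih A'.card (hA ▸ card_lt_card hA') A' rfl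
        (fun K hK hKc => hclq K (hK.trans hA'.subset) hKc)
    by_cases hiso : Iso G r A = ∅
    · by_contra hcon
      push Not at hcon
      have hb : Bad G r A := by
        refine ⟨hclq, IH, hiso, ?_, hr⟩
        intro X hX
        have := hcon X hX
        rw [hiso, card_empty] at this
        omega
      by_cases hK : ∃ K ⊆ A, K.card = r + 1 ∧ ∀ x ∈ K, ∀ y ∈ K, x ≠ y → G.Adj x y
      · obtain ⟨K, hKA, hKc, hKclq⟩ := hK
        rcases Nat.lt_or_ge r 3 with h | h
        · have h2 : r = 2 := by omega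
          subst h2
          exact hb.false_of_two hKA hKc hKclq
        · exact hb.false_of_three h hKA hKc hKclq
      · push Not at hK
        obtain ⟨U, h1, h2⟩ := simple_bound (G := G) A.card r A rfl (by
          intro K hKA hKclq
          have h3 := hclq K hKA hKclq
          by_contra h4
          have h5 : K.card = r + 1 := by omega
          obtain ⟨x, hx, y, hy, hxy, hn⟩ := hK K hKA h5
          exact hn (hKclq x hx y hy hxy))
        have := hb.no U h1
        omega
    · obtain ⟨D, hD⟩ := nonempty_iff_ne_empty.2 hiso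
      obtain ⟨d1, d2, d3, d4⟩ := mem_Iso.1 hD
      obtain ⟨x, hx⟩ := Iso_nonempty hD
      have hss : A \ D ⊂ A := by
        refine ⟨sdiff_subset, fun h => ?_⟩
        exact (mem_sdiff.1 (h (d1 hx))).2 hx
      obtain ⟨U, hU1, hU2⟩ := IH _ hss
      have hred : Red G A D {x} := by
        refine ⟨by simpa using hx, d1, ⟨x, hx⟩, ?_, ?_⟩
        · intro u hu v hv hadj
          rw [mem_singleton] at hu hv
          subst hu hv
          exact absurd rfl hadj.ne
        · intro u hu t ht hadj
          rw [mem_singleton] at hu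
          subst hu
          rw [mem_sdiff] at ht
          exact absurd hadj.symm (d4 t ht.1 ht.2 u hx)
      refine ⟨{x} ∪ U, glue hred hU1, ?_⟩
      have hdisj : Disjoint {x} U := by
        rw [disjoint_singleton_left]
        intro h
        exact (mem_sdiff.1 (hU1.1 h)).2 hx
      rw [card_union_of_disjoint hdisj, card_singleton]
      have h1 : (A \ D).card + D.card = A.card := card_sdiff_add_card_eq_card d1
      have h2 := card_le_card (Iso_sdiff hD)
      rw [card_erase_of_mem hD] at h2
      have h3 : 0 < (Iso G r A).card := card_pos.2 ⟨D, hD⟩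
      rw [d2] at h1
      have h4 : r * (1 + U.card) = r + r * U.card := by ring
      omega

/-- Connected version: the local metric dimension. -/
theorem local_dim [Fintype V] (hconn : G.Connected) (ω : ℕ)
    (hfree : G.CliqueFree (ω + 1)) (h4 : 4 ≤ ω + 1) (hcard : ω + 1 ≤ Fintype.card V) :
    ∃ W : Finset V,
      (∀ u v : V, G.Adj u v → ∃ w ∈ W, G.dist u w ≠ G.dist v w) ∧
      (ω - 1) * W.card ≤ (ω - 2) * Fintype.card V := by
  obtain ⟨r, rfl⟩ : ∃ r, ω = r + 1 := ⟨ω - 1, by omega⟩
  have hclq : ∀ K ⊆ (univ : Finset V), (∀ x ∈ K, ∀ y ∈ K, x ≠ y → G.Adj x y) →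
      K.card ≤ r + 1 := by
    intro K _ hK
    by_contra hcon
    push Not at hcon
    obtain ⟨K', hK', hK'c⟩ := exists_subset_card_eq (s := K) (n := r + 1 + 1) (by omega)
    apply hfree K'
    rw [SimpleGraph.isNClique_iff]
    refine ⟨?_, hK'c⟩
    intro x hx y hy hxy
    exact hK x (hK' hx) y (hK' hy) hxy
  obtain ⟨U, hU, hUc⟩ := main (G := G) r (by omega) _ univ rfl hclq
  have hiso : Iso G r (univ : Finset V) = ∅ := by
    by_contra hne
    obtain ⟨D, hD⟩ := nonempty_iff_ne_empty.2 hne
    obtain ⟨d1, d2, d3, d4⟩ := mem_Iso.1 hD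
    obtain ⟨x, hx⟩ := Iso_nonempty hD
    have hall : ∀ y, G.Reachable x y → y ∈ D := by
      intro y hy
      obtain ⟨p⟩ := hy
      induction p with
      | nil => exact hx
      | cons h p ih =>
        apply ih
        by_contra hcon
        exact d4 _ (mem_univ _) hcon _ hx h.symm
    have : D = univ := by
      ext y
      simp only [mem_univ, iff_true]
      exact hall y (hconn.preconnected x y)
    rw [this, card_univ] at d2
    omega
  rw [hiso, card_empty, add_zero, card_univ] at hUc
  refine ⟨univ \ U, ?_, ?_⟩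
  · intro u v hadj
    by_cases hu : u ∈ U
    · by_cases hv : v ∈ U
      · obtain ⟨w, hw, hres⟩ := hU.2 u hu v hv hadj
        refine ⟨w, hw, ?_⟩
        intro hd
        apply hres
        rw [G.adj_comm w u, G.adj_comm w v, ← SimpleGraph.dist_eq_one_iff_adj,
          ← SimpleGraph.dist_eq_one_iff_adj, hd]
      · refine ⟨v, by rw [mem_sdiff]; exact ⟨mem_univ _, hv⟩, ?_⟩
        rw [SimpleGraph.dist_self, SimpleGraph.dist_eq_one_iff_adj.2 hadj]
        exact one_ne_zero
    · refine ⟨u, by rw [mem_sdiff]; exact ⟨mem_univ _, hu⟩, ?_⟩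
      rw [SimpleGraph.dist_self, SimpleGraph.dist_eq_one_iff_adj.2 hadj.symm]
      exact zero_ne_one
  · have h1 : (univ \ U).card + U.card = Fintype.card V := by
      rw [card_sdiff_add_card_eq_card (subset_univ U), card_univ]
    obtain ⟨s, rfl⟩ : ∃ s, r = s + 1 := ⟨r - 1, by omega⟩
    have e1 : s + 1 + 1 - 1 = s + 1 := by omega
    have e2 : s + 1 + 1 - 2 = s := by omega
    rw [e1, e2]
    nlinarith

end Pool.Agent.E8helper22.LMD
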