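import Pool.Agent.E8helper22.LMDBasic

/-!
# Local metric dimension and clique number: the main theorem
-/

set_option autoImplicit false

namespace Pool.Agent.E8helper22.LMD

open Finset Classical

universe u

variable {V : Type u} {G : SimpleGraph V}

/-- distinct isolated cliques are disjoint -/
lemma Iso_disjoint {r : ℕ} {A D E : Finset V} (hD : D ∈ Iso G r A) (hE : E ∈ Iso G r A)
    (x : V) (hxD : x ∈ D) (hxE : x ∈ E) : D = E := by
  rw [mem_Iso] at hD hE
  obtain ⟨d1, d2, d3, d4⟩ := hD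
  obtain ⟨e1, e2, e3, e4⟩ := hE
  apply Finset.Subset.antisymm
  · intro y hy
    by_contra hyE
    have hxy : y ≠ x := by
      rintro rfl
      exact hyE hxE
    exact e4 y (d1 hy) hyE x hxE (d3 y hy x hxD hxy)
  · intro y hy
    by_contra hyD
    have hxy : y ≠ x := by
      rintro rfl
      exact hyD hxD
    exact d4 y (e1 hy) hyD x hxD (e3 y hy x hxE hxy)

lemma Iso_nonempty {r : ℕ} {A D : Finset V} (hD : D ∈ Iso G r A) : D.Nonempty := by
  rw [mem_Iso] at hD
  rw [← card_pos]
  omega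

/-- removing an isolated clique -/
lemma Iso_sdiff {r : ℕ} {A D : Finset V} (hD : D ∈ Iso G r A) :
    Iso G r (A \ D) ⊆ (Iso G r A).erase D := by
  intro E hE
  have hD' := mem_Iso.1 hD
  obtain ⟨d1, d2, d3, d4⟩ := hD'
  rw [mem_Iso] at hE
  obtain ⟨e1, e2, e3, e4⟩ := hE
  rw [mem_erase, mem_Iso]
  refine ⟨?_, e1.trans sdiff_subset, e2, e3, ?_⟩
  · rintro rfl
    obtain ⟨x, hx⟩ : E.Nonempty := by rw [← card_pos]; omega
    exact (mem_sdiff.1 (e1 hx)).2 hx
  · intro a ha haE k hk hadj
    by_cases haD : a ∈ D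
    · have h1 := mem_sdiff.1 (e1 hk)
      exact d4 k h1.1 h1.2 a haD hadj.symm
    · exact e4 a (mem_sdiff.2 ⟨ha, haD⟩) haE k hk hadj

/-- The setting of a minimal counterexample. -/
structure Bad (G : SimpleGraph V) (r : ℕ) (A : Finset V) : Prop where
  clq : ∀ K ⊆ A, (∀ x ∈ K, ∀ y ∈ K, x ≠ y → G.Adj x y) → K.card ≤ r + 1
  IH : ∀ A' : Finset V, A' ⊂ A → ∃ U, Good G A' U ∧ A'.card ≤ r * U.card + (Iso G r A').card
  iso : Iso G r A = ∅
  no : ∀ X, Good G A X → r * X.card < A.card
  hr : 2 ≤ r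

namespace Bad

variable {r : ℕ} {A : Finset V}

lemma M0 (hb : Bad G r A) {S U : Finset V} (h : Red G A S U) (T : Finset (Finset V))
    (hT : T ⊆ Iso G r (A \ S)) (ht : ∀ D ∈ T, ∃ w ∈ S \ U, ∃ d ∈ D, G.Adj w d) :
    r * U.card + (r - 1) * T.card < S.card + (Iso G r (A \ S) \ T).card := by
  have hr := hb.hr
  obtain ⟨X, h1, h2⟩ := master (r := r) (A := A) (by omega) hb.clq hb.IH T S U h hT ht
  have h3 := hb.no X h1
  omega

/-- `D` is touched by `W` -/
def Touch (G : SimpleGraph V) (W D : Finset V) : Prop := ∃ w ∈ W, ∃ d ∈ D, G.Adj w d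

lemma M (hb : Bad G r A) {S U : Finset V} (h : Red G A S U) :
    r * U.card + (r - 1) * ((Iso G r (A \ S)).filter (fun D => Touch G (S \ U) D)).card <
      S.card + ((Iso G r (A \ S)).filter (fun D => ¬ Touch G (S \ U) D)).card := by
  have h1 := hb.M0 h ((Iso G r (A \ S)).filter (fun D => Touch G (S \ U) D))
    (filter_subset _ _) (fun D hD => (mem_filter.1 hD).2)
  rw [filter_not]
  exact h1

lemma touched (hb : Bad G r A) {S D : Finset V} (hD : D ∈ Iso G r (A \ S)) :
    Touch G S D := by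
  by_contra hcon
  have : D ∈ Iso G r A := by
    rw [mem_Iso] at hD ⊢
    obtain ⟨d1, d2, d3, d4⟩ := hD
    refine ⟨d1.trans sdiff_subset, d2, d3, ?_⟩
    intro a ha haD k hk hadj
    by_cases haS : a ∈ S
    · exact hcon ⟨a, haS, k, hk, hadj⟩
    · exact d4 a (mem_sdiff.2 ⟨ha, haS⟩) haD k hk hadj
  rw [hb.iso] at this
  simp at this

/-- Isolated cliques of `A \ S` not touched by `S \ U` are isolated cliques of `A \ U`. -/
lemma untouched {S U D : Finset V} (hUS : U ⊆ S) (hD : D ∈ Iso G r (A \ S))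
    (ht : ¬ Touch G (S \ U) D) : D ∈ Iso G r (A \ U) := by
  rw [mem_Iso] at hD ⊢
  obtain ⟨d1, d2, d3, d4⟩ := hD
  refine ⟨d1.trans (sdiff_subset_sdiff (Subset.refl _) hUS), d2, d3, ?_⟩
  intro a ha haD k hk hadj
  rw [mem_sdiff] at ha
  by_cases haS : a ∈ S
  · exact ht ⟨a, mem_sdiff.2 ⟨haS, ha.2⟩, k, hk, hadj⟩
  · exact d4 a (mem_sdiff.2 ⟨ha.1, haS⟩) haD k hk hadj

lemma F1 (hb : Bad G r A) {X : Finset V} (hX : X ⊆ A) (hne : X.Nonempty) :
    (r - 1) * (Iso G r (A \ X)).card < X.card := by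
  have h : Red G A X ∅ := ⟨empty_subset _, hX, hne, by simp, by simp⟩
  have h1 := hb.M0 h (Iso G r (A \ X)) (Subset.refl _) (by
    intro D hD
    have := hb.touched hD
    rwa [sdiff_empty])
  simpa using h1

lemma F1_single (hb : Bad G r A) {x : V} (hx : x ∈ A) : Iso G r (A \ {x}) = ∅ := by
  have h1 := hb.F1 (X := {x}) (by simpa using hx) (singleton_nonempty x)
  have hr := hb.hr
  rw [card_singleton] at h1
  rw [← card_eq_zero]
  have : 1 ≤ r - 1 := by omega
  nlinarith

/-- bound for the number of untouched cliques -/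
lemma M2 (hb : Bad G r A) {S U : Finset V} (h : Red G A S U) (hU : U.Nonempty) :
    (r - 1) * ((Iso G r (A \ S)).filter (fun D => ¬ Touch G (S \ U) D)).card < U.card := by
  have h1 := hb.F1 (h.1.trans h.2.1) hU
  refine lt_of_le_of_lt (Nat.mul_le_mul_left _ (card_le_card ?_)) h1
  intro D hD
  rw [mem_filter] at hD
  exact untouched h.1 hD.1 hD.2

/-- common neighbours -/
noncomputable def comm (G : SimpleGraph V) (A C : Finset V) : Finset V :=
  A.filter (fun v => v ∉ C ∧ ∀ c ∈ C, G.Adj c v)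

lemma mem_comm {C : Finset V} {v : V} :
    v ∈ comm G A C ↔ v ∈ A ∧ v ∉ C ∧ ∀ c ∈ C, G.Adj c v := by
  unfold comm
  rw [mem_filter]

lemma comm_indep (hb : Bad G r A) {C : Finset V} (hCA : C ⊆ A) (hCc : C.card = r)
    (hCclq : ∀ x ∈ C, ∀ y ∈ C, x ≠ y → G.Adj x y) {u v : V} (hu : u ∈ comm G A C)
    (hv : v ∈ comm G A C) : ¬ G.Adj u v := by
  intro hadj
  rw [mem_comm] at hu hv
  have := hb.clq (insert u (insert v C)) (by
    intro x hx
    rw [mem_insert, mem_insert] at hx
    rcases hx with rfl | rfl | hx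
    · exact hu.1
    · exact hv.1
    · exact hCA hx) (by
    intro x hx y hy hxy
    rw [mem_insert, mem_insert] at hx hy
    rcases hx with rfl | rfl | hx <;> rcases hy with rfl | rfl | hy
    · exact absurd rfl hxy
    · exact hadj
    · exact (hu.2.2 y hy).symm
    · exact hadj.symm
    · exact absurd rfl hxy
    · exact (hv.2.2 y hy).symm
    · exact hu.2.2 x hx
    · exact hv.2.2 x hx
    · exact hCclq x hx y hy hxy)
  rw [card_insert_of_notMem, card_insert_of_notMem hv.2.1, hCc] at this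
  · omega
  · rw [mem_insert]
    rintro (rfl | h)
    · exact hadj.ne rfl
    · exact hu.2.1 h

lemma red_comm (hb : Bad G r A) {C T : Finset V} (hCA : C ⊆ A) (hCc : C.card = r)
    (hCclq : ∀ x ∈ C, ∀ y ∈ C, x ≠ y → G.Adj x y) :
    Red G A (C ∪ comm G A C) (comm G A C \ T) := by
  have hr := hb.hr
  refine ⟨?_, ?_, ?_, ?_, ?_⟩
  · exact sdiff_subset.trans subset_union_right
  · exact union_subset hCA (filter_subset _ _)
  · have : C.Nonempty := by rw [← card_pos]; omega
    exact this.mono subset_union_left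
  · intro u hu v hv hadj
    exact absurd hadj (hb.comm_indep hCA hCc hCclq (mem_sdiff.1 hu).1 (mem_sdiff.1 hv).1)
  · intro u hu t ht hadj
    rw [mem_sdiff, mem_union] at ht
    push Not at ht
    obtain ⟨ht1, ht2, ht3⟩ := ht
    rw [mem_comm] at ht3
    push Not at ht3
    obtain ⟨c, hc, hct⟩ := ht3 ht1 ht2
    have hu' := (mem_comm.1 (mem_sdiff.1 hu).1)
    refine ⟨c, ?_, ?_⟩
    · rw [mem_sdiff, mem_union, mem_sdiff, mem_comm]
      exact ⟨Or.inl hc, fun h => h.1.2.1 hc⟩
    · intro hiff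
      exact hct (hiff.1 (hu'.2.2 c hc))

lemma card_union_comm {C : Finset V} :
    (C ∪ comm G A C).card = C.card + (comm G A C).card := by
  apply card_union_of_disjoint
  rw [disjoint_left]
  intro x hx hx'
  exact (mem_comm.1 hx').2.1 hx

/-- for `r ≥ 3` every `r`-clique has at most one common neighbour -/
lemma comm_le_one_of_three (hb : Bad G r A) (hr3 : 3 ≤ r) {C : Finset V} (hCA : C ⊆ A)
    (hCc : C.card = r) (hCclq : ∀ x ∈ C, ∀ y ∈ C, x ≠ y → G.Adj x y) :
    (comm G A C).card ≤ 1 := by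
  by_contra hcon
  push Not at hcon
  have hred := hb.red_comm (T := ∅) hCA hCc hCclq
  rw [sdiff_empty] at hred
  have h1 := hb.M hred
  have h2 := hb.M2 hred (by rw [← card_pos]; omega)
  rw [card_union_comm, hCc] at h1
  generalize ((Iso G r (A \ (C ∪ comm G A C))).filter
    (fun D => ¬ Touch G ((C ∪ comm G A C) \ comm G A C) D)).card = k2 at h1 h2
  generalize ((Iso G r (A \ (C ∪ comm G A C))).filter
    (fun D => Touch G ((C ∪ comm G A C) \ comm G A C) D)).card = k1 at h1
  generalize (comm G A C).card = h at h1 h2 hcon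
  obtain ⟨s, rfl⟩ : ∃ s, r = s + 3 := ⟨r - 3, by omega⟩
  obtain ⟨g, rfl⟩ : ∃ g, h = g + 2 := ⟨h - 2, by omega⟩
  have e : s + 3 - 1 = s + 2 := by omega
  rw [e] at h1 h2
  -- (s+2)(g+1) ≤ k2 and (s+2) k2 < g + 2
  have h3 : (s + 2) * (g + 1) ≤ k2 := by
    have : (s + 3) * (g + 2) < s + 3 + (g + 2) + k2 := by
      have := Nat.zero_le ((s + 2) * k1)
      omega
    nlinarith
  nlinarith

/-- the case `r ≥ 3` -/
lemma false_of_three (hb : Bad G r A) (hr3 : 3 ≤ r) {K : Finset V} (hKA : K ⊆ A)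
    (hKc : K.card = r + 1) (hKclq : ∀ x ∈ K, ∀ y ∈ K, x ≠ y → G.Adj x y) : False := by
  obtain ⟨y, hy, hyK, a, ha, hya⟩ : ∃ y ∈ A, y ∉ K ∧ ∃ a ∈ K, G.Adj y a := by
    by_contra hcon
    push Not at hcon
    have : K ∈ Iso G r A := by
      rw [mem_Iso]
      exact ⟨hKA, hKc, hKclq, hcon⟩
    rw [hb.iso] at this
    simp at this
  obtain ⟨b, hbK, hyb⟩ : ∃ b ∈ K, ¬ G.Adj y b := by
    by_contra hcon
    push Not at hcon
    have := hb.clq (insert y K) (insert_subset hy hKA) (by
      intro x hx z hz hxz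
      rw [mem_insert] at hx hz
      rcases hx with rfl | hx <;> rcases hz with rfl | hz
      · exact absurd rfl hxz
      · exact hcon z hz
      · exact (hcon x hx).symm
      · exact hKclq x hx z hz hxz)
    rw [card_insert_of_notMem hyK] at this
    omega
  have hab : a ≠ b := by
    rintro rfl
    exact hyb hya
  -- any outside vertex adjacent to all of `K` except `z` does not exist
  have key : ∀ z ∈ K, ∀ t ∈ A, t ∉ K → ∃ k ∈ K, k ≠ z ∧ ¬ G.Adj k t := by
    intro z hz t ht htK
    by_contra hcon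
    push Not at hcon
    have h1 := hb.comm_le_one_of_three hr3 (C := K.erase z) ((erase_subset _ _).trans hKA)
      (by rw [card_erase_of_mem hz, hKc]; rfl)
      (fun x hx w hw hxw => hKclq x (mem_of_mem_erase hx) w (mem_of_mem_erase hw) hxw)
    rw [card_le_one] at h1
    have h2 := h1 z (by
      rw [mem_comm]
      refine ⟨hKA hz, by simp, ?_⟩
      intro c hc
      rw [mem_erase] at hc
      exact hKclq c hc.2 z hz hc.1) t (by
      rw [mem_comm]
      refine ⟨ht, fun h => htK (mem_of_mem_erase h), ?_⟩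
      intro c hc
      rw [mem_erase] at hc
      exact hcon c hc.2 hc.1)
    rw [← h2] at htK
    exact htK hz
  have hyU : y ∈ insert y K \ {a, b} := by
    rw [mem_sdiff, mem_insert, mem_insert, mem_singleton]
    refine ⟨Or.inl rfl, ?_⟩
    rintro (rfl | rfl)
    · exact hyK ha
    · exact hyK hbK
  have hkU : ∀ k ∈ K, k ≠ a → k ≠ b → k ∈ insert y K \ {a, b} := by
    intro k hk h1 h2
    rw [mem_sdiff, mem_insert, mem_insert, mem_singleton]
    exact ⟨Or.inr hk, fun h => by rcases h with h | h; exacts [h1 h, h2 h]⟩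
  have hred : Red G A (insert y K) {a, b} := by
    refine ⟨?_, insert_subset hy hKA, ⟨y, mem_insert_self _ _⟩, ?_, ?_⟩
    · intro x hx
      rw [mem_insert, mem_singleton] at hx
      rcases hx with rfl | rfl
      · exact mem_insert_of_mem ha
      · exact mem_insert_of_mem hbK
    · intro u hu v hv hadj
      refine ⟨y, hyU, ?_⟩
      rw [mem_insert, mem_singleton] at hu hv
      rcases hu with rfl | rfl <;> rcases hv with rfl | rfl
      · exact absurd rfl hadj.ne
      · exact fun h => hyb (h.1 hya)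
      · exact fun h => hyb (h.2 hya)
      · exact absurd rfl hadj.ne
    · intro u hu t ht hadj
      rw [mem_sdiff, mem_insert] at ht
      push Not at ht
      obtain ⟨ht1, ht2, ht3⟩ := ht
      rw [mem_insert, mem_singleton] at hu
      rcases hu with rfl | rfl
      · obtain ⟨k, hk, hkb, hkt⟩ := key b hbK t ht1 ht3
        have hku : k ≠ u := by
          rintro rfl
          exact hkt hadj
        exact ⟨k, hkU k hk hku hkb, fun h => hkt (h.1 (hKclq k hk u ha hku))⟩
      · obtain ⟨k, hk, hka, hkt⟩ := key a ha t ht1 ht3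
        have hku : k ≠ u := by
          rintro rfl
          exact hkt hadj
        exact ⟨k, hkU k hk hka hku, fun h => hkt (h.1 (hKclq k hk u hbK hku))⟩
  have h1 := hb.M hred
  have h2 := hb.M2 hred ⟨a, mem_insert_self _ _⟩
  rw [card_insert_of_notMem hyK, hKc, card_pair hab] at h1
  rw [card_pair hab] at h2
  generalize ((Iso G r (A \ insert y K)).filter
    (fun D => ¬ Touch G (insert y K \ {a, b}) D)).card = k2 at h1 h2
  generalize ((Iso G r (A \ insert y K)).filter
    (fun D => Touch G (insert y K \ {a, b}) D)).card = k1 at h1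
  obtain ⟨s, rfl⟩ : ∃ s, r = s + 3 := ⟨r - 3, by omega⟩
  have e : s + 3 - 1 = s + 2 := by omega
  rw [e] at h1 h2
  have h3 : k2 = 0 := by
    by_contra h
    have : 1 ≤ k2 := by omega
    nlinarith
  have := Nat.zero_le ((s + 2) * k1)
  omega

end Bad

end Pool.Agent.E8helper22.LMD
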