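import Pool.Agent.E8helper22.LMDMain

/-!
# Local metric dimension and clique number: the case of clique number three
-/

set_option autoImplicit false

namespace Pool.Agent.E8helper22.LMD

open Finset Classical

universe u

variable {V : Type u} {G : SimpleGraph V}

namespace Bad

variable {A : Finset V}

/-- `r = 2`: an edge with at least two common neighbours has exactly two common neighbours `p, q`,
and there is exactly one isolated triangle `D` of `A \ (C ∪ {p, q})`; it is touched by both `p` and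
`q` and not touched by `C`. -/
lemma two_structure (hb : Bad G 2 A) {C : Finset V} (hCA : C ⊆ A) (hCc : C.card = 2)
    (hCclq : ∀ x ∈ C, ∀ y ∈ C, x ≠ y → G.Adj x y) (hh : 2 ≤ (comm G A C).card) :
    (comm G A C).card = 2 ∧ ∃ D, Iso G 2 (A \ (C ∪ comm G A C)) = {D} ∧
      (∀ p ∈ comm G A C, ∃ d ∈ D, G.Adj p d) ∧ ∀ c ∈ C, ∀ d ∈ D, ¬ G.Adj c d := by
  set H := comm G A C with hH
  set S := C ∪ H with hS
  have hSc : S.card = 2 + H.card := by
    rw [hS, hH, card_union_comm, hCc]
  have hdisj : Disjoint C H := by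
    rw [disjoint_left]
    intro x hx hx'
    exact (mem_comm.1 hx').2.1 hx
  -- S \ (H \ T) = C ∪ T for T ⊆ H
  have hST : ∀ T ⊆ H, S \ (H \ T) = C ∪ T := by
    intro T hT
    ext x
    rw [hS, mem_sdiff, mem_union, mem_sdiff, mem_union]
    constructor
    · rintro ⟨h1 | h1, h2⟩
      · exact Or.inl h1
      · right
        by_contra h
        exact h2 ⟨h1, h⟩
    · rintro (h1 | h1)
      · exact ⟨Or.inl h1, fun h => (disjoint_left.1 hdisj) h1 h.1⟩
      · exact ⟨Or.inr (hT h1), fun h => h.2 h1⟩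
  have hsum : ∀ W : Finset V, ((Iso G 2 (A \ S)).filter (fun D => Touch G W D)).card +
      ((Iso G 2 (A \ S)).filter (fun D => ¬ Touch G W D)).card = (Iso G 2 (A \ S)).card := by
    intro W
    exact card_filter_add_card_filter_not _
  -- T = ∅
  have hred0 := hb.red_comm (T := ∅) hCA hCc hCclq
  have h1 := hb.M hred0
  have h2 := hb.M2 hred0 (by rw [sdiff_empty, ← card_pos, ← hH]; omega)
  rw [← hH, ← hS, hST ∅ (empty_subset _), union_empty, sdiff_empty] at h1 h2
  rw [hSc] at h1
  have hs0 := hsum C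
  have hk1 : ((Iso G 2 (A \ S)).filter (fun D => Touch G C D)).card = 0 := by omega
  have hk2 : (Iso G 2 (A \ S)).card = H.card - 1 := by omega
  have hCun : ∀ D ∈ Iso G 2 (A \ S), ∀ c ∈ C, ∀ d ∈ D, ¬ G.Adj c d := by
    intro D hD c hc d hd hadj
    rw [card_eq_zero] at hk1
    have : D ∈ (Iso G 2 (A \ S)).filter (fun D => Touch G C D) := by
      rw [mem_filter]
      exact ⟨hD, c, hc, d, hd, hadj⟩
    rw [hk1] at this
    simp at this
  -- T = {p}
  have hp : ∀ p ∈ H, ((Iso G 2 (A \ S)).filter (fun D => ∃ d ∈ D, G.Adj p d)).card ≤ 1 := by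
    intro p hp
    have hred := hb.red_comm (T := {p}) hCA hCc hCclq
    have h3 := hb.M hred
    rw [← hH, ← hS, hST {p} (by simpa using hp)] at h3
    have h4 : (H \ {p}).card = H.card - 1 := by
      rw [card_sdiff_of_subset (by simpa using hp), card_singleton]
    rw [h4, hSc] at h3
    have hs := hsum (C ∪ {p})
    have h5 : ((Iso G 2 (A \ S)).filter (fun D => ∃ d ∈ D, G.Adj p d)).card ≤
        ((Iso G 2 (A \ S)).filter (fun D => Touch G (C ∪ {p}) D)).card := by
      apply card_le_card
      intro D hD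
      rw [mem_filter] at hD ⊢
      obtain ⟨hD1, d, hd, hadj⟩ := hD
      exact ⟨hD1, p, by simp, d, hd, hadj⟩
    omega
  -- each D touched by two
  have hD2 : ∀ D ∈ Iso G 2 (A \ S), 2 ≤ (H.filter (fun p => ∃ d ∈ D, G.Adj p d)).card := by
    intro D hD
    by_contra hcon
    push Not at hcon
    obtain ⟨x, hx, d, hd, hadj⟩ := hb.touched hD
    have hxH : x ∈ H := by
      rw [hS, mem_union] at hx
      rcases hx with hx | hx
      · exact absurd hadj (hCun D hD x hx d hd)
      · exact hx
    have hxA : x ∈ A := (mem_comm.1 hxH).1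
    have huniq : ∀ z ∈ H, (∃ d ∈ D, G.Adj z d) → z = x := by
      have hle : (H.filter (fun p => ∃ d ∈ D, G.Adj p d)).card ≤ 1 := by omega
      rw [card_le_one] at hle
      intro z hz hz'
      exact hle z (by rw [mem_filter]; exact ⟨hz, hz'⟩) x
        (by rw [mem_filter]; exact ⟨hxH, d, hd, hadj⟩)
    have hmem : D ∈ Iso G 2 (A \ {x}) := by
      apply untouched (S := S) (U := {x})
      · intro z hz
        rw [mem_singleton] at hz
        rw [hz]
        exact hx
      · exact hD
      · rintro ⟨w, hw, e, he, hwe⟩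
        rw [mem_sdiff, mem_singleton, hS, mem_union] at hw
        rcases hw.1 with h | h
        · exact hCun D hD w h e he hwe
        · exact hw.2 (huniq w h ⟨e, he, hwe⟩)
    rw [hb.F1_single hxA] at hmem
    simp at hmem
  -- double counting
  have hdc : ∑ p ∈ H, ((Iso G 2 (A \ S)).filter (fun D => ∃ d ∈ D, G.Adj p d)).card =
      ∑ D ∈ Iso G 2 (A \ S), (H.filter (fun p => ∃ d ∈ D, G.Adj p d)).card :=
    Finset.sum_card_bipartiteAbove_eq_sum_card_bipartiteBelow
      (fun (p : V) (D : Finset V) => ∃ d ∈ D, G.Adj p d)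
  have hle1 : ∑ p ∈ H, ((Iso G 2 (A \ S)).filter (fun D => ∃ d ∈ D, G.Adj p d)).card ≤
      ∑ p ∈ H, 1 := sum_le_sum hp
  have hle2 : ∑ D ∈ Iso G 2 (A \ S), 2 ≤
      ∑ D ∈ Iso G 2 (A \ S), (H.filter (fun p => ∃ d ∈ D, G.Adj p d)).card := sum_le_sum hD2
  rw [sum_const, smul_eq_mul, mul_one] at hle1
  rw [sum_const, smul_eq_mul, hk2] at hle2
  have hH2 : H.card = 2 := by omega
  refine ⟨hH2, ?_⟩
  have hone : (Iso G 2 (A \ S)).card = 1 := by omega
  rw [card_eq_one] at hone
  obtain ⟨D, hD⟩ := hone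
  have hDm : D ∈ Iso G 2 (A \ S) := by rw [hD]; simp
  refine ⟨D, hD, ?_, fun c hc d hd => hCun D hDm c hc d hd⟩
  have h6 := hD2 D hDm
  have h7 : H.filter (fun p => ∃ d ∈ D, G.Adj p d) = H := by
    apply eq_of_subset_of_card_le (filter_subset _ _)
    omega
  intro p hp
  rw [← h7, mem_filter] at hp
  exact hp.2

/-- every edge is in at most one triangle -/
lemma two_comm_le_one (hb : Bad G 2 A) {C : Finset V} (hCA : C ⊆ A) (hCc : C.card = 2)
    (hCclq : ∀ x ∈ C, ∀ y ∈ C, x ≠ y → G.Adj x y) : (comm G A C).card ≤ 1 := by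
  by_contra hcon
  obtain ⟨hH2, D, hIso, hDp, hDC⟩ := hb.two_structure hCA hCc hCclq (by omega)
  set H := comm G A C with hH
  have hDm : D ∈ Iso G 2 (A \ (C ∪ H)) := by rw [hIso]; simp
  have hDm' := mem_Iso.1 hDm
  obtain ⟨hDA, hDc, hDclq, hDiso⟩ := hDm'
  obtain ⟨c1, c2, hc12, hC⟩ := card_eq_two.1 hCc
  obtain ⟨p, q, hpq, hHpq⟩ := card_eq_two.1 hH2
  have hpH : p ∈ H := by rw [hHpq]; simp
  have hqH : q ∈ H := by rw [hHpq]; simp
  obtain ⟨dp, hdp, hpdp⟩ := hDp p hpH
  obtain ⟨dq, hdq, hqdq⟩ := hDp q hqH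
  have hc1 : c1 ∈ C := by rw [hC]; simp
  have hc2 : c2 ∈ C := by rw [hC]; simp
  obtain ⟨k, hk, hkn⟩ : ∃ k ∈ D, k ∉ ({dp, dq} : Finset V) := by
    by_contra h
    push Not at h
    have h1 : D ⊆ {dp, dq} := h
    have h2 := card_le_card h1
    have h3 := card_le_two (a := dp) (b := dq)
    omega
  rw [mem_insert, mem_singleton] at hkn
  push Not at hkn
  have hDmem : ∀ x ∈ D, x ∈ A ∧ x ∉ C ∧ x ∉ H := by
    intro x hx
    have := hDA hx
    rw [mem_sdiff, mem_union] at this
    push Not at this
    exact this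
  have hHmem : ∀ x ∈ H, x ∈ A ∧ x ∉ C ∧ ∀ c ∈ C, G.Adj c x := fun x hx => mem_comm.1 hx
  set S := (C ∪ H) ∪ D with hS
  set U := insert k (insert c2 H) with hU
  have hDH : ∀ x ∈ H, ∃ d ∈ D, d ≠ k ∧ G.Adj x d := by
    intro x hx
    rw [hHpq, mem_insert, mem_singleton] at hx
    rcases hx with rfl | rfl
    · exact ⟨dp, hdp, Ne.symm hkn.1, hpdp⟩
    · exact ⟨dq, hdq, Ne.symm hkn.2, hqdq⟩
  have hW1 : c1 ∈ S \ U := by
    rw [mem_sdiff, hS, hU, mem_union, mem_union, mem_insert, mem_insert]
    refine ⟨Or.inl (Or.inl hc1), ?_⟩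
    rintro (h | h | h)
    · exact (hDmem k hk).2.1 (h ▸ hc1)
    · exact hc12 h
    · exact (hHmem c1 h).2.1 hc1
  have hW2 : ∀ d ∈ D, d ≠ k → d ∈ S \ U := by
    intro d hd hdk
    rw [mem_sdiff, hS, hU, mem_union, mem_insert, mem_insert]
    refine ⟨Or.inr hd, ?_⟩
    rintro (h | h | h)
    · exact hdk h
    · exact (hDmem d hd).2.1 (h ▸ hc2)
    · exact (hDmem d hd).2.2 h
  have hadjc : G.Adj c1 c2 := hCclq c1 hc1 c2 hc2 hc12
  -- c2 versus H
  have hc2H : ∀ x ∈ H, Res G (S \ U) c2 x := by
    intro x hx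
    obtain ⟨d, hd, hdk, hxd⟩ := hDH x hx
    exact ⟨d, hW2 d hd hdk, fun h => hDC c2 hc2 d hd (h.2 hxd.symm).symm⟩
  have hkH : ∀ x ∈ H, Res G (S \ U) k x := by
    intro x hx
    exact ⟨c1, hW1, fun h => hDC c1 hc1 k hk (h.2 ((hHmem x hx).2.2 c1 hc1))⟩
  have hred : Red G A S U := by
    refine ⟨?_, ?_, ?_, ?_, ?_⟩
    · intro x hx
      rw [hU, mem_insert, mem_insert] at hx
      rw [hS, mem_union, mem_union]
      rcases hx with rfl | rfl | hx
      · exact Or.inr hk
      · exact Or.inl (Or.inl hc2)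
      · exact Or.inl (Or.inr hx)
    · intro x hx
      rw [hS, mem_union, mem_union] at hx
      rcases hx with (hx | hx) | hx
      · exact hCA hx
      · exact (hHmem x hx).1
      · exact (hDmem x hx).1
    · exact ⟨k, by rw [hS, mem_union]; exact Or.inr hk⟩
    · intro u hu v hv hadj
      rw [hU, mem_insert, mem_insert] at hu hv
      rcases hu with rfl | rfl | hu <;> rcases hv with rfl | rfl | hv
      · exact absurd rfl hadj.ne
      · exact absurd hadj.symm (hDC v hc2 u hk)
      · exact hkH v hv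
      · exact absurd hadj (hDC u hc2 v hk)
      · exact absurd rfl hadj.ne
      · exact hc2H v hv
      · exact (hkH u hu).symm
      · exact (hc2H u hu).symm
      · exact absurd hadj (hb.comm_indep hCA hCc hCclq hu hv)
    · intro u hu t ht hadj
      rw [mem_sdiff, hS, mem_union, mem_union] at ht
      push Not at ht
      obtain ⟨htA, ⟨htC, htH⟩, htD⟩ := ht
      have htS : t ∈ A \ (C ∪ H) := by
        rw [mem_sdiff, mem_union]
        exact ⟨htA, fun h => by rcases h with h | h; exacts [htC h, htH h]⟩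
      rw [hU, mem_insert, mem_insert] at hu
      rcases hu with rfl | rfl | hu
      · exact absurd hadj.symm (hDiso t htS htD u hk)
      · refine ⟨c1, hW1, ?_⟩
        intro h
        apply htH
        rw [hH, mem_comm]
        refine ⟨htA, htC, ?_⟩
        intro c hc
        rw [hC, mem_insert, mem_singleton] at hc
        rcases hc with rfl | rfl
        · exact h.1 hadjc
        · exact hadj
      · obtain ⟨d, hd, hdk, hud⟩ := hDH u hu
        exact ⟨d, hW2 d hd hdk, fun h => hDiso t htS htD d hd (h.1 hud.symm).symm⟩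
  have h1 := hb.M0 hred ∅ (empty_subset _) (by simp)
  have hSc : S.card = 7 := by
    rw [hS, card_union_of_disjoint, hH, card_union_comm, hCc, ← hH, hH2, hDc]
    rw [disjoint_left]
    intro x hx hx'
    rw [mem_union] at hx
    rcases hx with hx | hx
    · exact (hDmem x hx').2.1 hx
    · exact (hDmem x hx').2.2 hx
  have hUc : U.card = 4 := by
    rw [hU, card_insert_of_notMem, card_insert_of_notMem, hH2]
    · intro h
      exact (hHmem c2 h).2.1 hc2
    · rw [mem_insert]
      rintro (h | h)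
      · exact (hDmem k hk).2.1 (h ▸ hc2)
      · exact (hDmem k hk).2.2 h
  have hIso2 : (Iso G 2 (A \ S)).card = 0 := by
    have e : A \ S = (A \ (C ∪ H)) \ D := by
      ext x
      rw [hS, mem_sdiff, mem_union, mem_sdiff, mem_sdiff]
      tauto
    rw [e]
    have := card_le_card (Iso_sdiff hDm)
    rw [hIso] at this
    simpa using this
  rw [hSc, hUc, sdiff_empty, hIso2] at h1
  simp at h1

/-- every edge is in at most one triangle, elementwise -/
lemma two_unique (hb : Bad G 2 A) {x y u v : V} (hx : x ∈ A) (hy : y ∈ A) (hu : u ∈ A)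
    (hv : v ∈ A) (hxy : G.Adj x y) (hxu : G.Adj x u) (hyu : G.Adj y u) (hxv : G.Adj x v)
    (hyv : G.Adj y v) : u = v := by
  have h1 := hb.two_comm_le_one (C := {x, y}) (by
    intro z hz
    rw [mem_insert, mem_singleton] at hz
    rcases hz with rfl | rfl <;> assumption) (card_pair hxy.ne) (by
    intro a ha b hb hab
    rw [mem_insert, mem_singleton] at ha hb
    rcases ha with rfl | rfl <;> rcases hb with rfl | rfl
    · exact absurd rfl hab
    · exact hxy
    · exact hxy.symm
    · exact absurd rfl hab)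
  rw [card_le_one] at h1
  apply h1
  · rw [mem_comm]
    refine ⟨hu, ?_, ?_⟩
    · rw [mem_insert, mem_singleton]
      rintro (rfl | rfl)
      · exact hxu.ne rfl
      · exact hyu.ne rfl
    · intro c hc
      rw [mem_insert, mem_singleton] at hc
      rcases hc with rfl | rfl <;> assumption
  · rw [mem_comm]
    refine ⟨hv, ?_, ?_⟩
    · rw [mem_insert, mem_singleton]
      rintro (rfl | rfl)
      · exact hxv.ne rfl
      · exact hyv.ne rfl
    · intro c hc
      rw [mem_insert, mem_singleton] at hc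
      rcases hc with rfl | rfl <;> assumption

/-- A triangle `a b c` with an outside neighbour `y` of `a`: there is an isolated triangle `D` of
`A \ {a, b, c, y}` touched by `a` and `b` but not by `c` and `y`. -/
lemma two_step (hb : Bad G 2 A) {a b c y : V} (ha : a ∈ A) (hbA : b ∈ A) (hc : c ∈ A)
    (hy : y ∈ A) (hab : G.Adj a b) (hac : G.Adj a c) (hbc : G.Adj b c) (hya : G.Adj y a)
    (hyb : y ≠ b) (hyc : y ≠ c) :
    ∃ D, D ∈ Iso G 2 (A \ {y, a, b, c}) ∧ (∃ d ∈ D, G.Adj a d) ∧ (∃ d ∈ D, G.Adj b d) ∧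
      (∀ d ∈ D, ¬ G.Adj c d) ∧ (∀ d ∈ D, ¬ G.Adj y d) := by
  have hnyb : ¬ G.Adj y b := by
    intro h
    exact hyc (hb.two_unique ha hbA hy hc hab hya.symm h.symm hac hbc)
  have hred : Red G A {y, a, b, c} {a, b} := by
    have hWy : y ∈ ({y, a, b, c} : Finset V) \ {a, b} := by
      rw [mem_sdiff, mem_insert (a := y) (b := a), mem_singleton]
      refine ⟨by simp, ?_⟩
      rintro (rfl | rfl)
      · exact hya.ne rfl
      · exact hyb rfl
    have hWc : c ∈ ({y, a, b, c} : Finset V) \ {a, b} := by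
      rw [mem_sdiff, mem_insert (a := c) (b := a), mem_singleton]
      refine ⟨by simp, ?_⟩
      rintro (rfl | rfl)
      · exact hac.ne rfl
      · exact hbc.ne rfl
    refine ⟨?_, ?_, ⟨y, by simp⟩, ?_, ?_⟩
    · intro x hx
      rw [mem_insert, mem_singleton] at hx
      rcases hx with rfl | rfl <;> simp
    · intro x hx
      rw [mem_insert, mem_insert, mem_insert, mem_singleton] at hx
      rcases hx with rfl | rfl | rfl | rfl <;> assumption
    · intro u hu v hv hadj
      rw [mem_insert, mem_singleton] at hu hv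
      refine ⟨y, hWy, ?_⟩
      rcases hu with rfl | rfl <;> rcases hv with rfl | rfl
      · exact absurd rfl hadj.ne
      · exact fun h => hnyb (h.1 hya)
      · exact fun h => hnyb (h.2 hya)
      · exact absurd rfl hadj.ne
    · intro u hu t ht hadj
      rw [mem_sdiff, mem_insert, mem_insert, mem_insert, mem_singleton] at ht
      push Not at ht
      obtain ⟨htA, hty, hta, htb, htc⟩ := ht
      rw [mem_insert, mem_singleton] at hu
      refine ⟨c, hWc, ?_⟩
      rcases hu with rfl | rfl
      · intro h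
        exact htb (hb.two_unique ha hc htA hbA hac hadj (h.1 hac.symm) hab hbc.symm)
      · intro h
        exact hta (hb.two_unique hbA hc htA ha hbc hadj (h.1 hbc.symm) hab.symm hac.symm)
  have h1 := hb.M hred
  have hUc : ({a, b} : Finset V).card = 2 := card_pair hab.ne
  have hSc : ({y, a, b, c} : Finset V).card ≤ 4 := card_le_four
  rw [hUc] at h1
  have h3 : 0 < ((Iso G 2 (A \ {y, a, b, c})).filter
      (fun D => ¬ Touch G (({y, a, b, c} : Finset V) \ {a, b}) D)).card := by omega
  rw [card_pos] at h3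
  obtain ⟨D, hD⟩ := h3
  rw [mem_filter] at hD
  obtain ⟨hDm, hDt⟩ := hD
  have huc : ∀ d ∈ D, ¬ G.Adj c d := by
    intro d hd hadj
    apply hDt
    refine ⟨c, ?_, d, hd, hadj⟩
    rw [mem_sdiff, mem_insert (a := c) (b := a), mem_singleton]
    refine ⟨by simp, ?_⟩
    rintro (rfl | rfl)
    · exact hac.ne rfl
    · exact hbc.ne rfl
  have huy : ∀ d ∈ D, ¬ G.Adj y d := by
    intro d hd hadj
    apply hDt
    refine ⟨y, ?_, d, hd, hadj⟩
    rw [mem_sdiff, mem_insert (a := y) (b := a), mem_singleton]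
    refine ⟨by simp, ?_⟩
    rintro (rfl | rfl)
    · exact hya.ne rfl
    · exact hyb rfl
  refine ⟨D, hDm, ?_, ?_, huc, huy⟩
  · by_contra hcon
    push Not at hcon
    have : D ∈ Iso G 2 (A \ {b}) := by
      apply untouched (S := {y, a, b, c}) (U := {b}) _ hDm
      · rintro ⟨w, hw, e, he, hwe⟩
        rw [mem_sdiff, mem_insert, mem_insert, mem_insert, mem_singleton, mem_singleton] at hw
        obtain ⟨rfl | rfl | rfl | rfl, hw2⟩ := hw
        · exact huy e he hwe
        · exact hcon e he hwe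
        · exact hw2 rfl
        · exact huc e he hwe
      · intro x hx
        rw [mem_singleton] at hx
        rw [hx]
        simp
    rw [hb.F1_single hbA] at this
    simp at this
  · by_contra hcon
    push Not at hcon
    have : D ∈ Iso G 2 (A \ {a}) := by
      apply untouched (S := {y, a, b, c}) (U := {a}) _ hDm
      · rintro ⟨w, hw, e, he, hwe⟩
        rw [mem_sdiff, mem_insert, mem_insert, mem_insert, mem_singleton, mem_singleton] at hw
        obtain ⟨rfl | rfl | rfl | rfl, hw2⟩ := hw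
        · exact huy e he hwe
        · exact hw2 rfl
        · exact hcon e he hwe
        · exact huc e he hwe
      · intro x hx
        rw [mem_singleton] at hx
        rw [hx]
        simp
    rw [hb.F1_single ha] at this
    simp at this

end Bad

end Pool.Agent.E8helper22.LMD
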